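import Pool.Agent.Helper15.UL.GoalsE

/-!
# MP_57a173_lc, packet MDC: the number of conditions.
-/

noncomputable section

namespace UL.PkMDC

open UL

variable {I : Type} [LinearOrder I]

/-- The coordinate with the number `k`. -/
def co {D : Set I} (e : ℕ → Option D) (k : ℕ) : Option I := (e k).map Subtype.val

open Classical in
/-- The point given by a list. -/
def zz {D : Set I} (e : ℕ → Option D) : List (ℕ × Str) → Pt I
  | [] => fun _ => oneY
  | p :: l => fun ξ => if co e p.1 = some ξ then catY p.2 oneY else zz e l ξ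

theorem zz_approx {D : Set I} (e : ℕ → Option D) (F : Finset I)
    (hF : ∀ η ∈ F, ∃ k, co e k = some η) (z : Pt I) (N : ℕ) :
    ∃ l, ∀ η ∈ F, ∀ j, j < N → zz e l η j = z η j := by
  classical
  induction F using Finset.induction_on with
  | empty => exact ⟨[], by simp⟩
  | insert a s ha ih =>
    obtain ⟨l, hl⟩ := ih fun η hη => hF η (Finset.mem_insert_of_mem hη)
    obtain ⟨k, hk⟩ := hF a (Finset.mem_insert_self a s)
    refine ⟨(k, res (z a) N) :: l, ?_⟩
    intro η hη j hj
    by_cases h : η = a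
    · subst h
      have e1 : zz e ((k, res (z η) N) :: l) η = catY (res (z η) N) oneY := by
        simp only [zz]
        rw [if_pos hk]
      rw [e1, catY_coe, cat_lt (by simpa using hj), res_get]
    · have e1 : zz e ((k, res (z a) N) :: l) η = zz e l η := by
        simp only [zz]
        rw [if_neg]
        intro hc
        rw [hk] at hc
        exact h (Option.some.inj hc).symm
      rw [e1]
      exact hl η (by
        rcases Finset.mem_insert.1 hη with h1 | h1
        · exact absurd h1 h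
        · exact h1) j hj

theorem key {D : Set I} (hD : IsLowerSet D) (f : Pt I → Pt I) (hf : MD D f) :
    ∃ e : ℕ → Option D, (∀ z ξ, (∀ k, co e k ≠ some ξ) → f z ξ = z ξ) ∧
      ∀ ξ, (∃ k, co e k = some ξ) → ∀ (i : ℕ) (z : Pt I), ∃ F : Finset I,
        (∀ η ∈ F, ∃ k, co e k = some η) ∧ ∃ n, ∀ z' : Pt I,
          (∀ η ∈ F, ∀ j, j < n → z' η j = z η j) → f z' ξ i = f z ξ i := by
  obtain ⟨A0, hA0, h0⟩ := hf.1.cont
  obtain ⟨L, hL⟩ := hf.1
  obtain ⟨A1, hA1, h1⟩ := hL.sup
  have hc : ({none} ∪ some '' {d : D | (d : I) ∈ A0 ∪ A1} : Set (Option D)).Countable := by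
    apply (Set.countable_singleton _).union
    apply Set.Countable.image
    exact (hA0.union hA1).preimage Subtype.val_injective
  obtain ⟨e, he⟩ := hc.exists_eq_range ⟨none, Or.inl rfl⟩
  have hco : ∀ ξ, (∃ k, co e k = some ξ) ↔ ξ ∈ D ∧ ξ ∈ A0 ∪ A1 := by
    intro ξ
    constructor
    · rintro ⟨k, hk⟩
      have hm : e k ∈ ({none} ∪ some '' {d : D | (d : I) ∈ A0 ∪ A1} : Set (Option D)) := by
        rw [he]
        exact ⟨k, rfl⟩
      rcases hm with hm | ⟨d, hd, hd'⟩
      · rw [Set.mem_singleton_iff] at hm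
        unfold co at hk
        rw [hm] at hk
        cases hk
      · unfold co at hk
        rw [← hd'] at hk
        have : (d : I) = ξ := Option.some.inj hk
        rw [← this]
        exact ⟨d.2, hd⟩
    · rintro ⟨hξ, hξ'⟩
      have hm : some (⟨ξ, hξ⟩ : D) ∈ Set.range e := by
        rw [← he]
        exact Or.inr ⟨⟨ξ, hξ⟩, hξ', rfl⟩
      obtain ⟨k, hk⟩ := hm
      exact ⟨k, by unfold co; rw [hk]; rfl⟩
  refine ⟨e, ?_, ?_⟩
  · intro z ξ hξ
    by_cases hξD : ξ ∈ D
    · have hξA : ξ ∉ A1 := by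
        intro hc
        obtain ⟨k, hk⟩ := (hco ξ).2 ⟨hξD, Or.inr hc⟩
        exact hξ k hk
      apply Y.ext
      intro i
      have hp := hL.pre z ξ (i + 1)
      rw [h1 ξ hξA] at hp
      have := hp i (by simp)
      rw [← this, res_get]
    · exact hf.2 z ξ hξD
  · intro ξ hξ i z
    obtain ⟨F', n', hF', hn'⟩ := h0 {ξ} (i + 1) z
    refine ⟨F', ?_, n', ?_⟩
    · intro η hη
      obtain ⟨h2, η', h3, h4⟩ := hF' η hη
      rw [Finset.mem_singleton] at h3
      rw [h3] at h4
      rw [hco]
      rw [hco] at hξ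
      refine ⟨hD h4 hξ.1, ?_⟩
      rcases h2 with h2 | h2
      · exact Or.inl h2
      · rw [Finset.mem_singleton] at h2
        rw [h2]
        exact hξ.2
    · intro z' hz'
      exact hn' z' hz' ξ (Finset.mem_singleton_self ξ) i (Nat.lt_succ_self i)

/-- The code. -/
abbrev Code (D : Set I) : Type := (ℕ → Option D) × (List (ℕ × Str) × ℕ × ℕ → Bool)

open Classical in
/-- The bits of `f`. -/
def bt {D : Set I} (e : ℕ → Option D) (f : Pt I → Pt I) (q : List (ℕ × Str) × ℕ × ℕ) : Bool :=
  if h : ∃ ξ, co e q.2.1 = some ξ then f (zz e q.1) h.choose q.2.2 else false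

theorem bt_eq {D : Set I} (e : ℕ → Option D) (f : Pt I → Pt I) (l : List (ℕ × Str)) (k i : ℕ)
    (ξ : I) (hk : co e k = some ξ) : bt e f (l, k, i) = f (zz e l) ξ i := by
  have h : ∃ ξ, co e k = some ξ := ⟨ξ, hk⟩
  have h2 : h.choose = ξ := by
    have := h.choose_spec
    exact Option.some.inj (this.symm.trans hk)
  unfold bt
  rw [dif_pos h]
  simp only
  rw [h2]

theorem card_code (D : Set I) (hD : Cardinal.mk D ≤ Cardinal.continuum) :
    Cardinal.mk (Code D) ≤ Cardinal.continuum := by
  have h1 : Cardinal.mk (ℕ → Option D) ≤ Cardinal.continuum := by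
    rw [← Cardinal.power_def, Cardinal.mk_option, Cardinal.mk_nat,
      ← Cardinal.continuum_power_aleph0]
    apply Cardinal.power_le_power_right
    calc Cardinal.mk D + 1 ≤ Cardinal.continuum + Cardinal.continuum :=
          add_le_add hD (Cardinal.one_lt_aleph0.le.trans Cardinal.aleph0_le_continuum)
      _ = Cardinal.continuum := Cardinal.continuum_add_self
  have h2 : Cardinal.mk (List (ℕ × Str) × ℕ × ℕ → Bool) ≤ Cardinal.continuum := by
    rw [← Cardinal.power_def, Cardinal.mk_bool, ← Cardinal.two_power_aleph0]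
    exact Cardinal.power_le_power_left two_ne_zero (Cardinal.mk_le_aleph0)
  rw [Cardinal.mk_prod, Cardinal.lift_id, Cardinal.lift_id]
  calc _ ≤ Cardinal.continuum * Cardinal.continuum := mul_le_mul' h1 h2
    _ = Cardinal.continuum := Cardinal.continuum_mul_self

theorem thm : UL.G_MDC := by
  intro I _ D hD hc
  choose e he1 he2 using fun f : {f : Pt I → Pt I // MD D f} => key hD f.1 f.2
  refine (Cardinal.mk_le_of_injective (f := fun f : {f : Pt I → Pt I // MD D f} =>
    ((e f, bt (e f) f.1) : Code D)) ?_).trans (card_code D hc)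
  intro f g hfg
  have h1 : e f = e g := (Prod.ext_iff.1 hfg).1
  have h2 : bt (e f) f.1 = bt (e g) g.1 := (Prod.ext_iff.1 hfg).2
  apply Subtype.ext
  funext z ξ
  by_cases hξ : ∃ k, co (e f) k = some ξ
  · obtain ⟨k, hk⟩ := hξ
    apply Y.ext
    intro i
    obtain ⟨F, hF, n, hn⟩ := he2 f ξ ⟨k, hk⟩ i z
    obtain ⟨F', hF', n', hn'⟩ := he2 g ξ ⟨k, h1 ▸ hk⟩ i z
    classical
    obtain ⟨l, hl⟩ := zz_approx (e f) (F ∪ F') (by
      intro η hη
      rcases Finset.mem_union.1 hη with h | h
      · exact hF η h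
      · rw [h1]
        exact hF' η h) z (max n n')
    rw [← hn (zz (e f) l) (fun η hη j hj => hl η (Finset.mem_union_left _ hη) j
      (lt_of_lt_of_le hj (le_max_left _ _)))]
    rw [← hn' (zz (e f) l) (fun η hη j hj => hl η (Finset.mem_union_right _ hη) j
      (lt_of_lt_of_le hj (le_max_right _ _)))]
    rw [← bt_eq (e f) f.1 l k i ξ hk, h2, h1]
    exact bt_eq (e g) g.1 l k i ξ (h1 ▸ hk)
  · push Not at hξ
    rw [he1 f z ξ hξ, he1 g z ξ (h1 ▸ hξ)]

end UL.PkMDC
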